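import Pool.Agent.V11159.CR.P3

/-! Direct factors of cyclic groups that share all elements but one with a complete residue
system. -/

open Finset

namespace Pool.Agent.Results.MP_3e256f_co.AllButOne

/-- `A` is a direct factor of `ZMod ω`: for some `C`, every `g` is in exactly one way `a + c` with
`a ∈ A` and `c ∈ C`. -/
def IsDirectFactor {ω : ℕ} (A : Finset (ZMod ω)) : Prop :=
  ∃ C : Finset (ZMod ω), ∀ g : ZMod ω, ∃! p : ZMod ω × ZMod ω, p.1 ∈ A ∧ p.2 ∈ C ∧ p.1 + p.2 = g

/-- `S` is a complete set of residues modulo `n`: it has `n` elements, and they are pairwise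
incongruent modulo `n`. -/
def CompleteResidues {ω : ℕ} (n : ℕ) (S : Finset (ZMod ω)) : Prop :=
  S.card = n ∧ ∀ a ∈ S, ∀ b ∈ S, (ZMod.cast a : ZMod n) = ZMod.cast b → a = b

theorem result (ω n : ℕ) (hω : 0 < ω) (A B : Finset (ZMod ω)) (hA : IsDirectFactor A)
    (hn : A.card = n) (hB : CompleteResidues n B) :
    (∀ q : ℕ, q.Prime → 2 * (n - (A ∩ B).card) < q ^ n.factorization q →
      ∀ x : ZMod (q ^ n.factorization q),
        (A.filter fun a => (ZMod.cast a : ZMod (q ^ n.factorization q)) = x).card =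
          n / q ^ n.factorization q) ∧
    (n ≠ 2 → n ≤ (A ∩ B).card + 1 → (n % 4 ≠ 2 ∨ ∀ r : ℕ, r.Prime → r ∣ ω → r ∣ n) →
      CompleteResidues n A) := by
  obtain ⟨C, hC⟩ := hA
  haveI : NeZero ω := ⟨hω.ne'⟩
  have hB' : ∀ a ∈ B, ∀ b ∈ B, ((a.val : ℕ) : ZMod n) = ((b.val : ℕ) : ZMod n) → a = b := by
    intro a ha b hb h
    rw [ZMod.natCast_val, ZMod.natCast_val] at h
    exact hB.2 a ha b hb h
  refine ⟨?_, ?_⟩
  · intro q hq he x
    have h := Pool.Agent.V11159.CR.part1 hC hn hB.1 hB' hq he x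
    rw [← h, Pool.Agent.V11159.CR.cnt]
    simp only [ZMod.natCast_val]
  · intro hn2 he hor
    refine ⟨hn, ?_⟩
    intro a ha b hb h
    refine Pool.Agent.V11159.CR.part3 hC hn hB.1 hB' hn2 he hor a ha b hb ?_
    rw [ZMod.natCast_val, ZMod.natCast_val]
    exact h

end Pool.Agent.Results.MP_3e256f_co.AllButOne
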