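import Pool.Agent.V11159.TJ.Ind

/-! Direct factors of cyclic groups that share more than half of their elements with a complete
residue system, when the size and the index of the factor have at most two common prime factors. -/

open Finset

namespace Pool.Agent.Results.MP_3e256f_co.TwoCommonPrimes

open Pool.Agent.V11159.TJ

/-- `A` is a direct factor of `ZMod ω`: for some `C`, every `g` is in exactly one way `a + c` with
`a ∈ A` and `c ∈ C`. -/
def IsDirectFactor {ω : ℕ} (A : Finset (ZMod ω)) : Prop :=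
  ∃ C : Finset (ZMod ω), ∀ g : ZMod ω, ∃! p : ZMod ω × ZMod ω, p.1 ∈ A ∧ p.2 ∈ C ∧ p.1 + p.2 = g

/-- `S` is a complete set of residues modulo `n`: it has `n` elements, and they are pairwise
incongruent modulo `n`. -/
def CompleteResidues {ω : ℕ} (n : ℕ) (S : Finset (ZMod ω)) : Prop :=
  S.card = n ∧ ∀ a ∈ S, ∀ b ∈ S, (ZMod.cast a : ZMod n) = ZMod.cast b → a = b

lemma two_elts {S : Finset ℕ} (h : S.card ≤ 2) : ∃ p q : ℕ, ∀ s ∈ S, s = p ∨ s = q := by
  interval_cases hc : S.card
  · rw [card_eq_zero] at hc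
    exact ⟨0, 0, by simp [hc]⟩
  · obtain ⟨a, ha⟩ := card_eq_one.1 hc
    exact ⟨a, a, by simp [ha]⟩
  · obtain ⟨a, b, -, hab⟩ := card_eq_two.1 hc
    exact ⟨a, b, by simp [hab]⟩

theorem result (ω n : ℕ) (hω : 0 < ω) (A : Finset (ZMod ω)) (hA : IsDirectFactor A)
    (hn : A.card = n) (hpr : (n.primeFactors ∩ (ω / n).primeFactors).card ≤ 2) :
    n ∣ ω ∧
    (CompleteResidues n A ∨
      2 * (A.image fun a : ZMod ω => (ZMod.cast a : ZMod n)).card ≤ n) ∧
    (∀ B : Finset (ZMod ω), CompleteResidues n B → n + 1 ≤ 2 * (A ∩ B).card →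
      CompleteResidues n A) := by
  obtain ⟨B, hAB⟩ := hA
  haveI : NeZero ω := ⟨hω.ne'⟩
  set P : Set ℤ := {z | (z : ZMod ω) ∈ B} with hP
  set At : Finset ℤ := A.image fun a => (a.val : ℤ) with hAt
  have hPer : Per ω P := by
    intro z w h
    show (z : ZMod ω) ∈ B ↔ (w : ZMod ω) ∈ B
    have : (z : ZMod ω) = (w : ZMod ω) := by
      rw [← sub_eq_zero, ← Int.cast_sub, ZMod.intCast_zmod_eq_zero_iff_dvd]; exact h
    rw [this]
  have hTil : Til At P := by
    intro z
    obtain ⟨⟨a, b⟩, ⟨ha, hb, hab⟩, hu⟩ := hAB (z : ZMod ω)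
    refine ⟨(a.val : ℤ), ⟨mem_image.2 ⟨a, ha, rfl⟩, ?_⟩, ?_⟩
    · show ((z - (a.val : ℤ) : ℤ) : ZMod ω) ∈ B
      have : ((z - (a.val : ℤ) : ℤ) : ZMod ω) = b := by
        push_cast
        rw [ZMod.natCast_zmod_val, ← hab]
        simp
      rw [this]; exact hb
    · rintro y ⟨hy1, hy2⟩
      obtain ⟨a', ha', rfl⟩ := mem_image.1 hy1
      have h2 : ((z : ZMod ω) - a') ∈ B := by
        have : ((z - (a'.val : ℤ) : ℤ) : ZMod ω) = (z : ZMod ω) - a' := by
          push_cast
          rw [ZMod.natCast_zmod_val]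
        rw [← this]; exact hy2
      have h3 := hu (a', (z : ZMod ω) - a') ⟨ha', h2, by simp⟩
      have h4 : a' = a := congrArg Prod.fst h3
      rw [h4]
  have hAtc : At.card = n := by
    rw [hAt, card_image_of_injective, hn]
    intro a b h
    have h' : (a.val : ℤ) = (b.val : ℤ) := h
    exact ZMod.val_injective _ (by exact_mod_cast h')
  have hcard : n * (Bm ω P).card = ω := by rw [← hAtc]; exact til_card hPer hTil
  have hn0 : 0 < n := Nat.pos_of_ne_zero fun h => by rw [h] at hcard; omega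
  haveI : NeZero n := ⟨hn0.ne'⟩
  have hB0 : 0 < (Bm ω P).card := Nat.pos_of_ne_zero fun h => by rw [h] at hcard; omega
  have hnω : n ∣ ω := ⟨_, hcard.symm⟩
  have hall : ∀ A', Til A' P → A'.card = n := by
    intro A' hA'
    have h1 := til_card hPer hA'
    exact Nat.eq_of_mul_eq_mul_right hB0 (h1.trans hcard.symm)
  obtain ⟨p, q, hpq⟩ := two_elts hpr
  have hdiv : ω / n = (Bm ω P).card := Nat.div_eq_of_eq_mul_right hn0 hcard.symm
  have hD := dich p q ω hω n (Bm ω P).card P hPer hcard hall (by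
    intro s hs h1 h2
    refine hpq s (mem_inter.2 ⟨Nat.mem_primeFactors.2 ⟨hs, h1, hn0.ne'⟩, ?_⟩)
    rw [hdiv]
    exact Nat.mem_primeFactors.2 ⟨hs, h2, hB0.ne'⟩)
  have hcast : ∀ a : ZMod ω, (ZMod.cast a : ZMod n) = ((a.val : ℕ) : ZMod n) := by
    intro a
    rw [ZMod.natCast_val]
  have hmain : CompleteResidues n A ∨
      2 * (A.image fun a : ZMod ω => (ZMod.cast a : ZMod n)).card ≤ n := by
    rcases hD with h | h
    · left
      refine ⟨hn, ?_⟩
      intro a ha b hb hab
      have hab' : ((a.val : ℕ) : ZMod n) = ((b.val : ℕ) : ZMod n) := by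
        rw [← hcast, ← hcast]; exact hab
      rw [ZMod.natCast_eq_natCast_iff'] at hab'
      have h1 : ((a.val : ℤ)) = (b.val : ℤ) := by
        refine h At hTil (mem_coe.2 (mem_image.2 ⟨a, ha, rfl⟩))
          (mem_coe.2 (mem_image.2 ⟨b, hb, rfl⟩)) ?_
        show (a.val : ℤ) % n = (b.val : ℤ) % n
        exact_mod_cast hab'
      exact ZMod.val_injective _ (by exact_mod_cast h1)
    · right
      have h1 := h At hTil
      have h2 : (A.image fun a : ZMod ω => (ZMod.cast a : ZMod n)) ⊆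
          (At.image fun a : ℤ => a % n).image fun x : ℤ => (x : ZMod n) := by
        intro x hx
        obtain ⟨a, ha, rfl⟩ := mem_image.1 hx
        refine mem_image.2 ⟨(a.val : ℤ) % n, mem_image.2 ⟨_, mem_image.2 ⟨a, ha, rfl⟩, rfl⟩, ?_⟩
        rw [hcast]
        simp
      exact (Nat.mul_le_mul_left 2 ((card_le_card h2).trans card_image_le)).trans h1
  refine ⟨hnω, hmain, fun S hS hI => ?_⟩
  rcases hmain with h | h
  · exact h
  · exfalso
    have h1 : (A ∩ S).card ≤
        (A.image fun a : ZMod ω => (ZMod.cast a : ZMod n)).card := by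
      refine card_le_card_of_injOn (fun a : ZMod ω => (ZMod.cast a : ZMod n)) ?_ ?_
      · intro a ha
        exact mem_coe.2 (mem_image_of_mem _ (mem_inter.1 (mem_coe.1 ha)).1)
      · intro a ha b hb hab
        exact hS.2 a (mem_inter.1 (mem_coe.1 ha)).2 b (mem_inter.1 (mem_coe.1 hb)).2 hab
    omega

end Pool.Agent.Results.MP_3e256f_co.TwoCommonPrimes
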